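import Pool.Agent.Helper6.LP.St
import Pool.Agent.Helper9.SU.M_ALL

/-!
# Project LP, module GAP: the mean value of the correlations
-/

set_option autoImplicit false

noncomputable section

namespace Pool.Agent.Helper74.LP

open Finset
open Pool.Agent.Helper6.LP
open Pool.Agent.Helper98.LM (QQ)
open Pool.Agent.Helper15.AB (StMT)

/-- the numbers of the `j` by classes -/
private theorem cnt_GAP (Q I : Finset ℕ) (J : ℕ) (D : ℕ → ℕ) (S : ℕ → Finset ℕ)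
    (hQ : ∀ l ∈ Q, l.Prime) (hI : I ⊆ Icc 1 J)
    (hS : ∀ l ∈ Q, (∀ s ∈ S l, s < l) ∧ (S l).card ≤ 8)
    (hD : ∀ l ∈ Q, ∀ j ∈ I, l ∣ D j → j % l ∈ S l) :
    ∀ T ⊆ Q, ((I.filter (fun j : ℕ => ∀ l ∈ T, l ∣ D j)).card : ℝ) ≤
      8 ^ T.card * (J / ∏ l ∈ T, (l : ℝ) + 1) := by
  intro T hT
  have h1 := Pool.Agent.Helper9.SU.cntT_ALL 0 J S T
    (fun l hl => ⟨hQ l (hT hl), (hS l (hT hl)).1⟩) 1 0 le_rfl
    (fun l _ => Nat.coprime_one_right l)
  have h2 : I.filter (fun j : ℕ => ∀ l ∈ T, l ∣ D j) ⊆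
      (Ioc 0 (0 + J)).filter (fun e => e % 1 = 0 % 1 ∧ ∀ l ∈ T, e % l ∈ S l) := by
    intro j hj
    rw [mem_filter] at hj
    have h3 := mem_Icc.1 (hI hj.1)
    rw [mem_filter, mem_Ioc]
    exact ⟨⟨by omega, by omega⟩, by simp [Nat.mod_one],
      fun l hl => hD l (hT hl) j hj.1 (hj.2 l hl)⟩
  have h3 : ((I.filter (fun j : ℕ => ∀ l ∈ T, l ∣ D j)).card : ℝ) ≤
      (((Ioc 0 (0 + J)).filter (fun e => e % 1 = 0 % 1 ∧ ∀ l ∈ T, e % l ∈ S l)).card : ℝ) := by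
    exact_mod_cast card_le_card h2
  have h4 := (abs_le.1 h1).2
  rw [Nat.cast_one, div_one] at h4
  have h5 : ∏ l ∈ T, ((S l).card : ℝ) ≤ 8 ^ T.card := by
    calc ∏ l ∈ T, ((S l).card : ℝ) ≤ ∏ l ∈ T, (8 : ℝ) :=
          prod_le_prod (fun _ _ => Nat.cast_nonneg _)
            (fun l hl => by exact_mod_cast (hS l (hT hl)).2)
      _ = 8 ^ T.card := by rw [prod_const]
  have h6 : 0 < ∏ l ∈ T, (l : ℝ) :=
    prod_pos (fun l hl => by exact_mod_cast (hQ l (hT hl)).pos)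
  rw [prod_div_distrib] at h4
  have h7 : (J : ℝ) * ((∏ l ∈ T, ((S l).card : ℝ)) / ∏ l ∈ T, (l : ℝ)) ≤
      8 ^ T.card * (J / ∏ l ∈ T, (l : ℝ)) := by
    calc (J : ℝ) * ((∏ l ∈ T, ((S l).card : ℝ)) / ∏ l ∈ T, (l : ℝ)) =
          (∏ l ∈ T, ((S l).card : ℝ)) * (J / ∏ l ∈ T, (l : ℝ)) := by ring
      _ ≤ 8 ^ T.card * (J / ∏ l ∈ T, (l : ℝ)) :=
          mul_le_mul_of_nonneg_right h5 (div_nonneg (Nat.cast_nonneg _) h6.le)
  have h8 : (8 : ℝ) ^ T.card * (J / ∏ l ∈ T, (l : ℝ) + 1) =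
      8 ^ T.card * (J / ∏ l ∈ T, (l : ℝ)) + 8 ^ T.card := by ring
  rw [h8]
  linarith

/-- the classes by the roots of a polynomial -/
private theorem roots_GAP (l : ℕ) (hl : l.Prime) (P r : ℕ) (hP : ¬ l ∣ P)
    (f : Polynomial (ZMod l)) (hf : f ≠ 0) (hd : f.natDegree ≤ 8) :
    (∀ s ∈ (range l).filter (fun s : ℕ => f.eval ((r : ZMod l) + P * s) = 0), s < l) ∧
    ((range l).filter (fun s : ℕ => f.eval ((r : ZMod l) + P * s) = 0)).card ≤ 8 := by
  have : Fact l.Prime := ⟨hl⟩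
  refine ⟨fun s hs => mem_range.1 (mem_filter.1 hs).1, ?_⟩
  have h1 : ((range l).filter (fun s : ℕ => f.eval ((r : ZMod l) + P * s) = 0)).card ≤
      f.roots.toFinset.card := by
    refine card_le_card_of_injOn (fun s : ℕ => (r : ZMod l) + P * s) ?_ ?_
    · intro s hs
      have h2 := (mem_filter.1 (mem_coe.1 hs)).2
      simp only [mem_coe, Multiset.mem_toFinset, Polynomial.mem_roots hf, Polynomial.IsRoot]
      exact h2
    · intro s hs t ht h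
      have hs' := mem_range.1 (mem_filter.1 (mem_coe.1 hs)).1
      have ht' := mem_range.1 (mem_filter.1 (mem_coe.1 ht)).1
      have h3 : (P : ZMod l) * s = (P : ZMod l) * t := add_left_cancel h
      have h4 : (P : ZMod l) ≠ 0 := by
        intro h5
        exact hP ((ZMod.natCast_eq_zero_iff P l).1 h5)
      have h5 := mul_left_cancel₀ h4 h3
      rw [ZMod.natCast_eq_natCast_iff'] at h5
      rwa [Nat.mod_eq_of_lt hs', Nat.mod_eq_of_lt ht'] at h5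
  exact h1.trans ((Multiset.toFinset_card_le _).trans ((Polynomial.card_roots' f).trans hd))

/-- the product over the large primes -/
private theorem large_GAP (p w : ℕ) (hp : 1 ≤ p) :
    ∏ l ∈ QQ p w, (1 + 64 / (l : ℝ) ^ 2) ≤ Real.exp (64 / p) := by
  have h1 : ∏ l ∈ QQ p w, (1 + 64 / (l : ℝ) ^ 2) ≤ Real.exp (∑ l ∈ QQ p w, 64 / (l : ℝ) ^ 2) := by
    rw [Real.exp_sum]
    refine prod_le_prod (fun l _ => by positivity) (fun l _ => ?_)
    have := Real.add_one_le_exp (64 / (l : ℝ) ^ 2)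
    linarith
  refine h1.trans (Real.exp_le_exp.2 ?_)
  have h2 : ∑ l ∈ QQ p w, 64 / (l : ℝ) ^ 2 ≤ ∑ l ∈ Ioc p w, 64 / (l : ℝ) ^ 2 :=
    sum_le_sum_of_subset_of_nonneg (filter_subset _ _) (fun l _ _ => by positivity)
  refine h2.trans ?_
  by_cases hw : p ≤ w
  · have h3 := sum_Ioc_inv_sq_le_sub (α := ℝ) (k := p) (n := w) (by omega) hw
    have h4 : ∑ l ∈ Ioc p w, 64 / (l : ℝ) ^ 2 = 64 * ∑ l ∈ Ioc p w, ((l : ℝ) ^ 2)⁻¹ := by
      rw [mul_sum]
      rfl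
    rw [h4, div_eq_mul_inv]
    have h5 : (0 : ℝ) ≤ (w : ℝ)⁻¹ := by positivity
    linarith
  · rw [Ioc_eq_empty (by omega), sum_empty]
    positivity

/-- the product over the small primes -/
private theorem small_GAP (C : ℝ) (hC : ∀ y : ℝ, 3 ≤ y →
    |∑ l ∈ (Icc 1 ⌊y⌋₊).filter Nat.Prime, (1 : ℝ) / l - Real.log (Real.log y)| ≤ C)
    (p w Y : ℕ) (hY : 3 ≤ Y) :
    ∏ l ∈ (QQ p w).filter (fun l => l ≤ Y), (1 + 64 / (l : ℝ)) ≤
      Real.exp (64 * C) * Real.log Y ^ 64 := by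
  have hY3 : (3 : ℝ) ≤ Y := by exact_mod_cast hY
  have hlog : 0 < Real.log Y := Real.log_pos (by linarith)
  have h1 : ∏ l ∈ (QQ p w).filter (fun l => l ≤ Y), (1 + 64 / (l : ℝ)) ≤
      Real.exp (∑ l ∈ (QQ p w).filter (fun l => l ≤ Y), 64 / (l : ℝ)) := by
    rw [Real.exp_sum]
    refine prod_le_prod (fun l _ => by positivity) (fun l _ => ?_)
    have := Real.add_one_le_exp (64 / (l : ℝ))
    linarith
  have h2 : ∑ l ∈ (QQ p w).filter (fun l => l ≤ Y), 64 / (l : ℝ) ≤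
      64 * ∑ l ∈ (Icc 1 Y).filter Nat.Prime, (1 : ℝ) / l := by
    rw [mul_sum]
    have h3 : ∑ l ∈ (Icc 1 Y).filter Nat.Prime, 64 * ((1 : ℝ) / l) =
        ∑ l ∈ (Icc 1 Y).filter Nat.Prime, 64 / (l : ℝ) :=
      sum_congr rfl (fun l _ => by ring)
    rw [h3]
    refine sum_le_sum_of_subset_of_nonneg ?_ (fun l _ _ => by positivity)
    intro l hl
    rw [mem_filter, QQ, mem_filter, mem_Ioc] at hl
    rw [mem_filter, mem_Icc]
    exact ⟨⟨hl.1.2.pos, hl.2⟩, hl.1.2⟩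
  have h4 := (abs_le.1 (hC Y hY3)).2
  rw [Nat.floor_natCast] at h4
  calc ∏ l ∈ (QQ p w).filter (fun l => l ≤ Y), (1 + 64 / (l : ℝ)) ≤
        Real.exp (∑ l ∈ (QQ p w).filter (fun l => l ≤ Y), 64 / (l : ℝ)) := h1
    _ ≤ Real.exp (64 * C + ((64 : ℕ) : ℝ) * Real.log (Real.log Y)) := by
        refine Real.exp_le_exp.2 ?_
        push_cast
        linarith
    _ = Real.exp (64 * C) * Real.log Y ^ 64 := by
        rw [Real.exp_add, Real.exp_nat_mul, Real.exp_log hlog]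

/-- GG for classes given by the roots of a polynomial -/
private theorem main_GAP (hG : StGG8) (C : ℝ) (hC : ∀ y : ℝ, 3 ≤ y →
    |∑ l ∈ (Icc 1 ⌊y⌋₊).filter Nat.Prime, (1 : ℝ) / l - Real.log (Real.log y)| ≤ C)
    (p w P r J : ℕ) (hp : 1 ≤ p) (hP : 1 ≤ P) (hPp : ∀ l : ℕ, l.Prime → l ∣ P → l ≤ p)
    (I : Finset ℕ) (hI : I ⊆ Icc 1 J) (D : ℕ → ℕ)
    (hD : ∀ j ∈ I, 1 ≤ D j ∧ D j ≤ 400 * (P * (J + 1)) ^ 12) (f : ∀ l : ℕ, Polynomial (ZMod l))
    (hf : ∀ l : ℕ, l.Prime → f l ≠ 0 ∧ (f l).natDegree ≤ 8)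
    (hfD : ∀ l : ℕ, l.Prime → ∀ j ∈ I, l ∣ D j → (f l).eval ((r : ZMod l) + P * j) = 0) :
    ∑ j ∈ I, ∏ l ∈ (QQ p w).filter (fun l => l ∣ D j), (1 + 8 / (l : ℝ)) ≤
      J * Real.exp (64 / p) + Real.exp (64 * C) * Real.log (400 * (P * (J + 1)) ^ 12) ^ 64 := by
  have hQ : ∀ l ∈ QQ p w, l.Prime ∧ p < l := by
    intro l hl
    rw [QQ, mem_filter, mem_Ioc] at hl
    exact ⟨hl.2, hl.1.1⟩
  have hQP : ∀ l ∈ QQ p w, ¬ l ∣ P := by
    intro l hl h
    have h1 := hPp l (hQ l hl).1 h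
    have h2 := (hQ l hl).2
    omega
  have h1 := hG (QQ p w) I J (400 * (P * (J + 1)) ^ 12) D (fun l hl => (hQ l hl).1) hD
    (cnt_GAP (QQ p w) I J D
      (fun l => (range l).filter (fun s : ℕ => (f l).eval ((r : ZMod l) + P * s) = 0))
      (fun l hl => (hQ l hl).1) hI
      (fun l hl => roots_GAP l (hQ l hl).1 P r (hQP l hl) (f l) (hf l (hQ l hl).1).1
        (hf l (hQ l hl).1).2)
      (by
        intro l hl j hj hd
        rw [mem_filter, mem_range]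
        refine ⟨Nat.mod_lt _ (hQ l hl).1.pos, ?_⟩
        rw [ZMod.natCast_mod]
        exact hfD l (hQ l hl).1 j hj hd))
  have h2 := large_GAP p w hp
  have hPJ : 1 ≤ P * (J + 1) := Nat.mul_pos hP (Nat.succ_pos J)
  have h3 := small_GAP C hC p w (400 * (P * (J + 1)) ^ 12) (by
    have := Nat.one_le_pow 12 _ hPJ
    omega)
  have h4 : (((400 * (P * (J + 1)) ^ 12 : ℕ)) : ℝ) = 400 * ((P : ℝ) * ((J : ℝ) + 1)) ^ 12 := by
    push_cast
    ring
  rw [h4] at h3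
  have h5 : (J : ℝ) * ∏ l ∈ QQ p w, (1 + 64 / (l : ℝ) ^ 2) ≤ J * Real.exp (64 / p) :=
    mul_le_mul_of_nonneg_left h2 (Nat.cast_nonneg _)
  linarith

/-- the polynomial of the classes -/
private def pol (l z : ℕ) : Polynomial (ZMod l) :=
  (Polynomial.X - Polynomial.C (z : ZMod l)) *
  (Polynomial.C (2 * (z : ZMod l) ^ 2 - 2 * z + 1) * Polynomial.X ^ 2 +
    Polynomial.C (3 * (z : ZMod l) ^ 2 - 2 * z) * Polynomial.X + Polynomial.C ((z : ZMod l) ^ 2)) *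
  (Polynomial.C (((z : ZMod l) + 1) * (2 * z + 1)) * Polynomial.X ^ 2 +
    Polynomial.C (-(2 * (z : ZMod l) * (z + 1))) * Polynomial.X + Polynomial.C ((z : ZMod l) ^ 2)) *
  (Polynomial.C (1 + 2 * (z : ZMod l)) * Polynomial.X ^ 2 +
    Polynomial.C (2 * (z : ZMod l) ^ 2 - 2 * z) * Polynomial.X + Polynomial.C ((z : ZMod l) ^ 2))

/-- a quadratic polynomial with leading coefficient one if the constant term is zero -/
private theorem quad_ne (l : ℕ) (hl : l.Prime) (a b c : ZMod l) (h : c = 0 → a = 1) :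
    (Polynomial.C a * Polynomial.X ^ 2 + Polynomial.C b * Polynomial.X +
      Polynomial.C c : Polynomial (ZMod l)) ≠ 0 := by
  have : Fact l.Prime := ⟨hl⟩
  intro h0
  by_cases hz : c = 0
  · have h1 := congrArg (fun f => Polynomial.coeff f 2) h0
    simp [hz, h hz] at h1
  · have h1 := congrArg (fun f => Polynomial.coeff f 0) h0
    simp at h1
    exact hz h1

private theorem quad_deg (l : ℕ) (a b c : ZMod l) :
    (Polynomial.C a * Polynomial.X ^ 2 + Polynomial.C b * Polynomial.X +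
      Polynomial.C c : Polynomial (ZMod l)).natDegree ≤ 2 := by
  compute_degree

private theorem pol_ne (l z : ℕ) (hl : l.Prime) : pol l z ≠ 0 := by
  have : Fact l.Prime := ⟨hl⟩
  unfold pol
  refine mul_ne_zero (mul_ne_zero (mul_ne_zero (Polynomial.X_sub_C_ne_zero _) ?_) ?_) ?_
  · exact quad_ne l hl _ _ _ (fun h => by rw [(pow_eq_zero_iff (two_ne_zero)).1 h]; ring)
  · exact quad_ne l hl _ _ _ (fun h => by rw [(pow_eq_zero_iff (two_ne_zero)).1 h]; ring)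
  · exact quad_ne l hl _ _ _ (fun h => by rw [(pow_eq_zero_iff (two_ne_zero)).1 h]; ring)

private theorem pol_deg (l z : ℕ) (hl : l.Prime) : (pol l z).natDegree ≤ 8 := by
  have : Fact l.Prime := ⟨hl⟩
  unfold pol
  refine Polynomial.natDegree_mul_le.trans ?_
  have h4 := quad_deg l (1 + 2 * (z : ZMod l)) (2 * (z : ZMod l) ^ 2 - 2 * z) ((z : ZMod l) ^ 2)
  refine (Nat.add_le_add (Polynomial.natDegree_mul_le.trans (Nat.add_le_add
    (Polynomial.natDegree_mul_le.trans (Nat.add_le_add (Polynomial.natDegree_X_sub_C _).le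
      (quad_deg l _ _ _))) (quad_deg l _ _ _))) h4).trans ?_
  norm_num

private theorem DD_eq (y z : ℕ) :
    DD y z = (((y : ℤ) - z) * rA y z * rA z y * rB y z).natAbs := by
  unfold DD
  rw [Int.natAbs_mul, Int.natAbs_mul, Int.natAbs_mul]

private theorem dd_GAP (l y z : ℕ) (h : l ∣ DD y z) : (pol l z).eval (y : ZMod l) = 0 := by
  rw [DD_eq] at h
  have h1 := Int.natCast_dvd.2 h
  have h2 := (ZMod.intCast_zmod_eq_zero_iff_dvd _ l).2 h1
  unfold rA rB at h2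
  push_cast at h2
  rw [← h2]
  unfold pol
  simp only [Polynomial.eval_mul, Polynomial.eval_add, Polynomial.eval_sub, Polynomial.eval_pow,
    Polynomial.eval_C, Polynomial.eval_X]
  ring

private theorem rA_pos (y z : ℕ) (hy : 1 ≤ y) (hz : 1 ≤ z) : 1 ≤ (rA y z).natAbs := by
  have hy' : (1 : ℤ) ≤ y := by exact_mod_cast hy
  have hz' : (1 : ℤ) ≤ z := by exact_mod_cast hz
  have h : 0 < rA y z := by
    unfold rA
    have e : (y : ℤ) ^ 2 + y * (y + 1) * ((z : ℤ) ^ 2 - 2 * z) + (z : ℤ) ^ 2 * (y + 1) ^ 2 =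
        (y : ℤ) ^ 2 + y * (y + 1) * ((z : ℤ) - 1) ^ 2 + y * (y + 1) * ((z : ℤ) ^ 2 - 1) +
          (z : ℤ) ^ 2 * (y + 1) := by ring
    rw [e]
    have h1 : 0 ≤ (y : ℤ) * (y + 1) * ((z : ℤ) - 1) ^ 2 := by positivity
    have h2 : 0 ≤ (y : ℤ) * (y + 1) * ((z : ℤ) ^ 2 - 1) := by
      have : (0 : ℤ) ≤ (z : ℤ) ^ 2 - 1 := by nlinarith
      positivity
    have h3 : 0 ≤ (z : ℤ) ^ 2 * (y + 1) := by positivity
    have h4 : 0 < (y : ℤ) ^ 2 := by positivity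
    linarith
  omega

private theorem rB_pos (y z : ℕ) (hy : 1 ≤ y) (hz : 1 ≤ z) : 1 ≤ (rB y z).natAbs := by
  have hy' : (1 : ℤ) ≤ y := by exact_mod_cast hy
  have hz' : (1 : ℤ) ≤ z := by exact_mod_cast hz
  have h : 0 < rB y z := by
    unfold rB
    have h1 : 0 ≤ 2 * (y : ℤ) * z * ((y : ℤ) + z - 2) := by
      have : (0 : ℤ) ≤ (y : ℤ) + z - 2 := by linarith
      positivity
    have h2 : 0 < ((y : ℤ) + z) ^ 2 := by positivity
    linarith
  omega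

private theorem rA_le (y z K : ℕ) (hK : 1 ≤ K) (hy : 1 ≤ y) (hz : 1 ≤ z) (hyK : y ≤ K)
    (hzK : z ≤ K) : (rA y z).natAbs ≤ 7 * K ^ 4 := by
  have hy' : (1 : ℤ) ≤ y := by exact_mod_cast hy
  have hz' : (1 : ℤ) ≤ z := by exact_mod_cast hz
  have hyK' : (y : ℤ) ≤ K := by exact_mod_cast hyK
  have hzK' : (z : ℤ) ≤ K := by exact_mod_cast hzK
  have hK' : (1 : ℤ) ≤ K := by exact_mod_cast hK
  have hpos : 0 ≤ rA y z := by
    have := rA_pos y z hy hz
    unfold rA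
    have e : (y : ℤ) ^ 2 + y * (y + 1) * ((z : ℤ) ^ 2 - 2 * z) + (z : ℤ) ^ 2 * (y + 1) ^ 2 =
        (y : ℤ) ^ 2 + y * (y + 1) * ((z : ℤ) - 1) ^ 2 + y * (y + 1) * ((z : ℤ) ^ 2 - 1) +
          (z : ℤ) ^ 2 * (y + 1) := by ring
    rw [e]
    have h2 : (0 : ℤ) ≤ (z : ℤ) ^ 2 - 1 := by nlinarith
    positivity
  have hz2 : (z : ℤ) ^ 2 ≤ (K : ℤ) ^ 2 := pow_le_pow_left₀ (by linarith) hzK' 2
  have hy2 : (y : ℤ) ^ 2 ≤ (K : ℤ) ^ 2 := pow_le_pow_left₀ (by linarith) hyK' 2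
  have hK2 : (K : ℤ) ^ 2 ≤ (K : ℤ) ^ 4 := pow_le_pow_right₀ hK' (by norm_num)
  have h1 : (y : ℤ) * (y + 1) ≤ 2 * (K : ℤ) ^ 2 := by nlinarith
  have h2 : (y : ℤ) * (y + 1) * ((z : ℤ) ^ 2 - 2 * z) ≤ 2 * (K : ℤ) ^ 2 * (K : ℤ) ^ 2 := by
    have h3 : (y : ℤ) * (y + 1) * ((z : ℤ) ^ 2 - 2 * z) ≤ (y : ℤ) * (y + 1) * (z : ℤ) ^ 2 := by
      have : (0 : ℤ) ≤ (y : ℤ) * (y + 1) * (2 * z) := by positivity
      nlinarith
    refine h3.trans ?_
    exact mul_le_mul h1 hz2 (by positivity) (by positivity)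
  have h3 : ((y : ℤ) + 1) ^ 2 ≤ 4 * (K : ℤ) ^ 2 := by
    have : ((y : ℤ) + 1) ^ 2 ≤ (2 * (K : ℤ)) ^ 2 := pow_le_pow_left₀ (by linarith) (by linarith) 2
    linarith
  have h4 : (z : ℤ) ^ 2 * (y + 1) ^ 2 ≤ (K : ℤ) ^ 2 * (4 * (K : ℤ) ^ 2) :=
    mul_le_mul hz2 h3 (by positivity) (by positivity)
  have h5 : rA y z ≤ 7 * (K : ℤ) ^ 4 := by
    unfold rA
    nlinarith
  have h6 : (((rA y z).natAbs : ℕ) : ℤ) = rA y z := Int.natAbs_of_nonneg hpos
  have h7 : (((rA y z).natAbs : ℕ) : ℤ) ≤ ((7 * K ^ 4 : ℕ) : ℤ) := by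
    rw [h6]
    push_cast
    exact h5
  exact_mod_cast h7

private theorem rB_le (y z K : ℕ) (hK : 1 ≤ K) (hy : 1 ≤ y) (hz : 1 ≤ z) (hyK : y ≤ K)
    (hzK : z ≤ K) : (rB y z).natAbs ≤ 8 * K ^ 3 := by
  have hy' : (1 : ℤ) ≤ y := by exact_mod_cast hy
  have hz' : (1 : ℤ) ≤ z := by exact_mod_cast hz
  have hyK' : (y : ℤ) ≤ K := by exact_mod_cast hyK
  have hzK' : (z : ℤ) ≤ K := by exact_mod_cast hzK
  have hK' : (1 : ℤ) ≤ K := by exact_mod_cast hK
  have h0 : (0 : ℤ) ≤ (y : ℤ) + z - 2 := by linarith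
  have hpos : 0 ≤ rB y z := by
    unfold rB
    positivity
  have h1 : ((y : ℤ) + z) ^ 2 ≤ (2 * (K : ℤ)) ^ 2 := pow_le_pow_left₀ (by linarith) (by linarith) 2
  have h2 : (y : ℤ) * z ≤ (K : ℤ) * K := mul_le_mul hyK' hzK' (by linarith) (by linarith)
  have h3 : (y : ℤ) * z * ((y : ℤ) + z - 2) ≤ (K : ℤ) * K * (2 * K) :=
    mul_le_mul h2 (by linarith) h0 (by positivity)
  have hK2 : (K : ℤ) ^ 2 ≤ (K : ℤ) ^ 3 := pow_le_pow_right₀ hK' (by norm_num)
  have h5 : rB y z ≤ 8 * (K : ℤ) ^ 3 := by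
    unfold rB
    nlinarith
  have h6 : (((rB y z).natAbs : ℕ) : ℤ) = rB y z := Int.natAbs_of_nonneg hpos
  have h7 : (((rB y z).natAbs : ℕ) : ℤ) ≤ ((8 * K ^ 3 : ℕ) : ℤ) := by
    rw [h6]
    push_cast
    exact h5
  exact_mod_cast h7

theorem hGAP (hG : StGG8) (hM : StMT) : StGAP := by
  obtain ⟨C, hC0, hC⟩ := hM
  intro ε hε
  have hL : 0 < Real.log (1 + ε / 2) := Real.log_pos (by linarith)
  refine ⟨⌈64 / Real.log (1 + ε / 2)⌉₊ + 1, ?_⟩
  intro p P hp hP hPp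
  have hp1 : 1 ≤ p := by omega
  have hpR : 64 / Real.log (1 + ε / 2) ≤ p := by
    have h1 := Nat.le_ceil (64 / Real.log (1 + ε / 2))
    have h2 : ((⌈64 / Real.log (1 + ε / 2)⌉₊ + 1 : ℕ) : ℝ) ≤ p := by exact_mod_cast hp
    push_cast at h2
    linarith
  have hp0 : (0 : ℝ) < p := by exact_mod_cast hp1
  have hexp : Real.exp (64 / p) ≤ 1 + ε / 2 := by
    rw [← Real.le_log_iff_exp_le (by linarith)]
    rw [div_le_iff₀ hp0]
    rw [div_le_iff₀ hL] at hpR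
    linarith
  have hPR : (1 : ℝ) ≤ P := by exact_mod_cast hP
  have hη : 0 < ε / (2 * (Real.exp (64 * C) * 12 ^ 64 * (4 * P))) := by positivity
  have hlit := (Real.isLittleO_pow_log_id_atTop (n := 64)).bound hη
  obtain ⟨X₀, hX₀⟩ := Filter.eventually_atTop.1 hlit
  refine ⟨⌈X₀⌉₊ + 1, ?_⟩
  intro J r w hJ hr hrP
  have hJ1 : 1 ≤ J := by omega
  have hJR : (1 : ℝ) ≤ J := by exact_mod_cast hJ1
  have hJX : X₀ ≤ J := by
    have h1 := Nat.le_ceil X₀
    have h2 : ((⌈X₀⌉₊ + 1 : ℕ) : ℝ) ≤ J := by exact_mod_cast hJ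
    push_cast at h2
    linarith
  have herr : Real.exp (64 * C) * Real.log (400 * (P * (J + 1)) ^ 12) ^ 64 ≤ ε / 2 * J := by
    set x : ℝ := 2 * (P * (J + 1)) with hx
    have hPJ : (J : ℝ) + 1 ≤ P * (J + 1) := by nlinarith
    have hx1 : 3 ≤ x := by linarith
    have hxJ : (J : ℝ) ≤ x := by linarith
    have hx6 : x ≤ 4 * P * J := by
      rw [hx]
      nlinarith
    have h1 := hX₀ x (hJX.trans hxJ)
    simp only [id, Real.norm_eq_abs] at h1
    have hlogx : 0 ≤ Real.log x := Real.log_nonneg (by linarith)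
    rw [abs_of_nonneg (pow_nonneg hlogx 64), abs_of_nonneg (by linarith : 0 ≤ x)] at h1
    have h2 : Real.log (400 * (P * (J + 1)) ^ 12) ≤ 12 * Real.log x := by
      have h3 : (400 : ℝ) * (P * (J + 1)) ^ 12 ≤ x ^ 12 := by
        rw [hx, mul_pow]
        have : 0 ≤ ((P : ℝ) * (J + 1)) ^ 12 := by positivity
        nlinarith
      calc Real.log (400 * (P * (J + 1)) ^ 12) ≤ Real.log (x ^ 12) :=
            Real.log_le_log (by positivity) h3
        _ = 12 * Real.log x := by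
            rw [Real.log_pow]
            push_cast
            ring
    have h4 : 0 ≤ Real.log (400 * ((P : ℝ) * (J + 1)) ^ 12) := by
      refine Real.log_nonneg ?_
      have h5 : (1 : ℝ) ≤ ((P : ℝ) * (J + 1)) ^ 12 := one_le_pow₀ (by linarith)
      linarith
    have h5 : Real.log (400 * ((P : ℝ) * (J + 1)) ^ 12) ^ 64 ≤ 12 ^ 64 * Real.log x ^ 64 := by
      rw [← mul_pow]
      exact pow_le_pow_left₀ h4 h2 64
    have hE : 0 < Real.exp (64 * C) := Real.exp_pos _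
    calc Real.exp (64 * C) * Real.log (400 * (P * (J + 1)) ^ 12) ^ 64 ≤
          Real.exp (64 * C) * (12 ^ 64 * Real.log x ^ 64) := mul_le_mul_of_nonneg_left h5 hE.le
      _ ≤ Real.exp (64 * C) * (12 ^ 64 * (ε / (2 * (Real.exp (64 * C) * 12 ^ 64 * (4 * P))) * x)) := by
          refine mul_le_mul_of_nonneg_left ?_ hE.le
          exact mul_le_mul_of_nonneg_left h1 (by positivity)
      _ ≤ Real.exp (64 * C) * (12 ^ 64 * (ε / (2 * (Real.exp (64 * C) * 12 ^ 64 * (4 * P))) *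
            (4 * P * J))) := by
          refine mul_le_mul_of_nonneg_left ?_ hE.le
          refine mul_le_mul_of_nonneg_left ?_ (by positivity)
          exact mul_le_mul_of_nonneg_left hx6 hη.le
      _ = ε / 2 * J := by
          have hP0 : (P : ℝ) ≠ 0 := by positivity
          field_simp
  have htot : J * Real.exp (64 / p) + Real.exp (64 * C) * Real.log (400 * (P * (J + 1)) ^ 12) ^ 64 ≤
      (1 + ε) * J := by
    have h1 : (J : ℝ) * Real.exp (64 / p) ≤ J * (1 + ε / 2) :=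
      mul_le_mul_of_nonneg_left hexp (by linarith)
    linarith
  have hK : ∀ j ∈ Icc 1 J, 1 ≤ r + P * j ∧ r + P * j ≤ P * (J + 1) := by
    intro j hj
    rw [mem_Icc] at hj
    have h1 : P * 1 ≤ P * j := Nat.mul_le_mul_left P hj.1
    have h2 : P * j ≤ P * J := Nat.mul_le_mul_left P hj.2
    have h3 : P * (J + 1) = P * J + P := by ring
    constructor
    · omega
    · omega
  have hPJ : 1 ≤ P * (J + 1) := Nat.mul_pos hP (Nat.succ_pos J)
  intro j' hj'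
  refine (main_GAP hG C hC p w P r J hp1 hP hPp ((Icc 1 J).erase j') (erase_subset _ _)
    (fun j => DD (r + P * j) (r + P * j')) ?_ (fun l => pol l (r + P * j')) ?_ ?_).trans htot
  · intro j hj
    rw [mem_erase] at hj
    obtain ⟨hne, hj⟩ := hj
    have hk := hK j hj
    have hk' := hK j' hj'
    set K : ℕ := P * (J + 1) with hKdef
    set k : ℕ := r + P * j with hkdef
    set k' : ℕ := r + P * j' with hkdef'
    have hkk : ((k : ℤ) - k').natAbs ≠ 0 := by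
      rw [Int.natAbs_ne_zero, sub_ne_zero]
      intro h1
      have h2 : k = k' := by exact_mod_cast h1
      have h3 : P * j = P * j' := by omega
      exact hne (Nat.eq_of_mul_eq_mul_left (by omega) h3)
    have hkK : ((k : ℤ) - k').natAbs ≤ K := by omega
    constructor
    · unfold DD
      exact Nat.mul_pos (Nat.mul_pos (Nat.mul_pos (Nat.pos_of_ne_zero hkk)
        (rA_pos k k' hk.1 hk'.1)) (rA_pos k' k hk'.1 hk.1)) (rB_pos k k' hk.1 hk'.1)
    · unfold DD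
      calc ((k : ℤ) - k').natAbs * (rA k k').natAbs * (rA k' k).natAbs * (rB k k').natAbs ≤
            K * (7 * K ^ 4) * (7 * K ^ 4) * (8 * K ^ 3) :=
            Nat.mul_le_mul (Nat.mul_le_mul (Nat.mul_le_mul hkK
              (rA_le k k' K hPJ hk.1 hk'.1 hk.2 hk'.2))
              (rA_le k' k K hPJ hk'.1 hk.1 hk'.2 hk.2))
              (rB_le k k' K hPJ hk.1 hk'.1 hk.2 hk'.2)
        _ = 392 * K ^ 12 := by ring
        _ ≤ 400 * K ^ 12 := Nat.mul_le_mul_right _ (by norm_num)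
  · intro l hl
    exact ⟨pol_ne l _ hl, pol_deg l _ hl⟩
  · intro l hl j hj hd
    have h1 := dd_GAP l (r + P * j) (r + P * j') hd
    push_cast at h1
    exact h1

end Pool.Agent.Helper74.LP
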